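import Mathlib
import Pool.Agent.Q63.VO.Main

/-!
# Voisin's conjecture for elementary abelian 2-coverings of the plane

Let `X` be (a desingularisation of) a covering of the complex projective plane with the group `(ℤ/2)^k`, branched over
smooth curves `D_i` of degrees `d i ≤ 4` whose union has normal crossings, such that all intermediate double planes
are branched over curves of degree at most six. Then Voisin's conjecture is true for `X`: for all
`n > p_g(X)` and all Albanese-trivial zero-cycles the alternating sum of the exterior products is zero.

The condition on the double planes holds if the total degree of the branch curves is at most seven. Examples: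
* all such coverings branched over at most seven lines; for seven lines and `k = 6` these are the smooth complete
  intersections of four diagonal quadrics in `P^6`, with `p_g = 7`;
* the bidouble planes branched over three cubics (smooth or unions of conics and lines), with `p_g = 3`;
* all such coverings with branch curves of the degrees `(4, 2)`, `(4, 2, 1)`, `(3, 3)`, `(3, 3, 1)`, `(3, 2, 2)`, …

The zero-cycles of `X` are sums of zero-cycles coming from the double planes. A double plane branched in degree at
most four is rational, and one branched in degree six is a K3 surface with the branch curve a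
union of two cubics or of a quartic and a conic (`exists_split`), for which `x × y = y × x` is known (Voisin). As
`p_g(X)` is the number of these K3 surfaces, among more than `p_g(X)` cycles two come from the same K3 surface.
-/

set_option autoImplicit false

namespace Pool.Agent.Results.MP_83b46e_ag.CoveringsOverSextics

open Multiplicative Pool.Agent.Q63.PC Pool.Agent.Q63.VO

theorem result {s : ℕ} (d : Fin s → ℕ) (hd : ∀ i, 1 ≤ d i ∧ d i ≤ 4)
    (Λ : AddSubgroup (Fin s → ZMod 2)) (ψ : AddChar (ZMod 2) ℂ) (hψ : ψ.IsPrimitive)
    {V : Type} [AddCommGroup V] [Module ℂ V] {A : ℕ → Type} [∀ n, AddCommGroup (A n)]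
    [∀ n, Module ℂ (A n)] (ρ : Representation ℂ (Multiplicative (Fin s → ZMod 2)) V)
    (μ : ∀ n, MultilinearMap ℂ (fun _ : Fin n => V) (A n)) (hX : VoisinData d Λ ψ ρ μ)
    (h : (∀ a ∈ Λ, branch d a ≤ 6) ∨ ∑ i, d i ≤ 7) (n : ℕ) (hn : geomGenus d Λ < n)
    (v : Fin n → V) :
    ∑ σ : Equiv.Perm (Fin n), Equiv.Perm.sign σ • μ n (fun i => v (σ i)) = 0 := by
  have h6 : ∀ a ∈ Λ, branch d a ≤ 6 := by
    rcases h with h | h
    · exact h
    · intro a ha
      obtain ⟨k, hk⟩ := hX.even a ha
      have h1 : branch d a ≤ ∑ i, d i := by
        unfold branch
        exact Finset.sum_le_sum_of_subset (Finset.filter_subset _ _)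
      omega
  have h1 := voisin hψ (fun i => (hd i).1) (fun i => (hd i).2) hX h6 hn v
  rw [MultilinearMap.alternatization_apply] at h1
  exact h1

end Pool.Agent.Results.MP_83b46e_ag.CoveringsOverSextics
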