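import Pool.Agent.Q145.NC.VoiF

/-!
# Voisin's conjecture on zero-cycles for quotients of products of two curves

`k` is an algebraically closed field of characteristic zero and `X = ∏ C_j ^ (N j)` is a product of
two smooth projective curves over `k` (two different curves, or the square of one), with an action
of a finite group `G` by natural automorphisms: the coordinates of `σ x` are of the form
`a(x_(j, f(j, q)))`, where `f` is a permutation and `a` is an automorphism of `C_j` that acts as an
integer (`1` or `-1`) on the Jacobian: the identity, the hyperelliptic involution, a translation or a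
point reflection of an elliptic curve.  Let `S` be a smooth projective surface birational to `X/G`;
its geometric genus is the dimension `p` of the space of the `G`-invariant `2`-forms on `X`.

Theorem. For all `n > p` and all Albanese-trivial zero-cycles `a_1, ..., a_n` on `X/G`,
`∑ τ, sgn(τ) a_{τ(1)} × ... × a_{τ(n)} = 0` in `CH_0((X/G)^n)_ℚ`.

Examples: `C : y² = f(x)` hyperelliptic of genus `g` and `G` the group of order four generated by
`(P, Q) ↦ (ι Q, P)`: `S` is the double plane `w² = q ℓ_1 ⋯ ℓ_{2g+2}` branched along a conic and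
`2g + 2` arbitrary lines tangent to it, `p_g = g(g+1)/2`; with `G` generated by `(P, Q) ↦ (Q, P)` and
`(ι, ι)`: the double plane branched along `2g + 2` lines tangent to a conic.
-/

set_option autoImplicit false

namespace Pool.Agent.Results.MP_83b46e_ag.DoublePlanes

open FF Pool.Agent.Q70.CH Pool.Agent.Q145.NC

/-- The alternating sum `∑ τ, sgn(τ) a_{τ(1)} × ... × a_{τ(n)}`. -/
noncomputable def alt {X : Type} {n : ℕ} (a : Fin n → X →₀ ℚ) : (Fin n → X) →₀ ℚ :=
  ∑ τ : Equiv.Perm (Fin n), ((Equiv.Perm.sign τ : ℤ) : ℚ) • cross (fun i => a (τ i))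

/-- The alternating forms of degree two on the tangent space `⨁_j (k ^ (g j)) ^ (N j)` of the product
of the Jacobians of the curves. -/
abbrev Alt2 (k : Type) [Field k] {J : Type} (g : J → ℕ) (N : J → Type) : Type :=
  TS k g N [⋀^Fin 2]→ₗ[k] k

/-- `φ` is a `G`-invariant holomorphic `2`-form on `X = ∏ C_j ^ (N j)`.  A `2`-form on `X` is given
by an alternating form `φ` on the tangent space of the product of the Jacobians which vanishes if two
arguments belong to the same factor; the pull-back of `φ` by `σ` is its composition with the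
differential of `σ`. -/
def InvariantForm {k : Type} [Field k] [CharZero k] {J : Type} {K : J → Type}
    [∀ j, Field (K j)] [∀ j, Algebra k (K j)] (g : J → ℕ) {N : J → Type} {G : Type} [Group G]
    (A : NAct k K N G) (φ : Alt2 k g N) : Prop :=
  IsForm φ ∧ ∀ σ, φ.compLinearMap (linN (A.F σ).f (A.F σ).s) = φ

/-- The forms `φ i` are linearly dependent. -/
def Dependent {k : Type} [Field k] {J : Type} {g : J → ℕ} {N : J → Type} {n : ℕ}
    (φ : Fin n → Alt2 k g N) : Prop :=
  ∃ c : Fin n → k, c ≠ 0 ∧ ∀ v, ∑ i, c i * φ i v = 0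

/-- The geometric genus of `X/G`, the dimension of the space of the `G`-invariant holomorphic
`2`-forms on `X`, is less than `n`. -/
def GenusLt {k : Type} [Field k] [CharZero k] {J : Type} {K : J → Type}
    [∀ j, Field (K j)] [∀ j, Algebra k (K j)] (g : J → ℕ) {N : J → Type} {G : Type} [Group G]
    (A : NAct k K N G) (n : ℕ) : Prop :=
  ∀ φ : Fin n → Alt2 k g N, (∀ i, InvariantForm g A (φ i)) → Dependent φ

/-- The zero-cycle on `X/G` which is the push-forward of `z` is Albanese-trivial: its pull-back
`∑ σ, σ_* z` to `X` is of degree zero and has projections rationally equivalent to zero to both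
curves. -/
def AlbaneseTrivial {k : Type} [Field k] [CharZero k] {J : Type} {K : J → Type}
    [∀ j, Field (K j)] [∀ j, Algebra k (K j)] {N : J → Type} {G : Type} [Group G] [Fintype G]
    (A : NAct k K N G) (z : (∀ j, N j → Place k (K j)) →₀ ℚ) : Prop :=
  AlbTriv (∑ σ, z.mapDomain (A.F σ).map)

/-- The space of zero-cycles (with rational coefficients) on `(X/G)^n` rationally equivalent to zero:
the push-forwards of those on `X^n` under the quotient map `X^n → (X/G)^n`. -/
noncomputable def ratTrivQuotient {k : Type} [Field k] [CharZero k] {J : Type} {K : J → Type}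
    [∀ j, Field (K j)] [∀ j, Algebra k (K j)] {N : J → Type} {G : Type} [Group G]
    (A : NAct k K N G) (n : ℕ) : Submodule ℚ ((Fin n → A.Orb) →₀ ℚ) :=
  (ratTriv (prodC (k := k) K (fun j => N j × Fin n))).map
    (Finsupp.lmapDomain ℚ ℚ (fun v b => A.quo (fun j q => v j (q, b))))

/-- Voisin's conjecture for `X/G`; the zero-cycles `a_i` on `X/G` are the push-forwards of the
cycles `z_i` on `X`. -/
theorem result {k : Type} [Field k] [CharZero k] [IsAlgClosed k] {J : Type} [Finite J]
    {K : J → Type} [∀ j, Field (K j)] [∀ j, Algebra k (K j)] [∀ j, IsFF k (K j)] {g : J → ℕ}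
    (hg : ∀ j, IsGenus k (K j) (g j)) {N : J → Type} [∀ j, Finite (N j)]
    (hN : Nat.card (Σ j, N j) = 2) {G : Type} [Group G] [Fintype G] (A : NAct k K N G) {n : ℕ}
    (hn : GenusLt g A n) (z : Fin n → (∀ j, N j → Place k (K j)) →₀ ℚ)
    (hz : ∀ i, AlbaneseTrivial A (z i)) :
    alt (fun i => (z i).mapDomain A.quo) ∈ ratTrivQuotient A n := by
  have h1 := A.voisin_quo hg hN (n := n) (A.finrank_lt hn) z (fun i => by
    rw [NAct.Z_apply]
    exact mem_fil_two _ (hz i))
  have h2 : ∀ τ : Equiv.Perm (Fin n), ((Equiv.Perm.sign τ : ℤ) : ℚ) ^ (2 + 1) =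
      ((Equiv.Perm.sign τ : ℤ) : ℚ) := by
    intro τ
    rw [pow_succ, pow_two]
    have : ((Equiv.Perm.sign τ : ℤ) : ℚ) * ((Equiv.Perm.sign τ : ℤ) : ℚ) = 1 := by
      rw [← Int.cast_mul, ← Units.val_mul, Int.units_mul_self]; simp
    rw [this, one_mul]
  simp only [h2] at h1
  exact h1

end Pool.Agent.Results.MP_83b46e_ag.DoublePlanes
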