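import Pool.Agent.Q70.CH.Prod2

/-!
# Voisin's conjecture on zero-cycles for all products of two curves
-/

set_option autoImplicit false

namespace Pool.Agent.Results.MP_83b46e_ag.ProductsOfCurves

open FF Pool.Agent.Q70.CH

/-- The alternating sum `∑ σ, sgn(σ) a_{σ(1)} × ... × a_{σ(n)}`. -/
noncomputable def alt {X : Type} {n : ℕ} (a : Fin n → X →₀ ℚ) : (Fin n → X) →₀ ℚ :=
  ∑ σ : Equiv.Perm (Fin n), ((Equiv.Perm.sign σ : ℤ) : ℚ) • cross (fun i => a (σ i))

/-- The surface `C₁ × C₂`, for the smooth projective curves with function fields `K₁`, `K₂`. -/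
abbrev surf (k : Type) [Field k] (K₁ K₂ : Type) [Field K₁] [Field K₂] [Algebra k K₁]
    [Algebra k K₂] : Sp k := (curve K₁).prod (curve K₂)

/-- A zero-cycle on `C₁ × C₂` is Albanese-trivial if its push-forwards to `C₁` and to `C₂` are
rationally equivalent to zero. -/
def AlbTrivial {k : Type} [Field k] [CharZero k] {K₁ K₂ : Type} [Field K₁] [Field K₂]
    [Algebra k K₁] [Algebra k K₂] (a : (surf k K₁ K₂).pts →₀ ℚ) : Prop :=
  a.mapDomain Prod.fst ∈ ratTriv (curve K₁ : Sp k) ∧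
    a.mapDomain Prod.snd ∈ ratTriv (curve K₂ : Sp k)

/-- Let `S = C₁ × C₂` be a product of two smooth projective curves of genera `g₁, g₂` over an
algebraically closed field of characteristic zero, so that `p_g(S) = g₁ g₂`.  Let `n > p_g(S)` and
let `a₁, ..., a_n` be Albanese-trivial zero-cycles on `S`.  Then
`∑ σ, sgn(σ) a_{σ(1)} × ... × a_{σ(n)} = 0` in `CH_0(S^n)` with rational coefficients. -/
theorem result {k : Type} [Field k] [CharZero k] [IsAlgClosed k] {K₁ K₂ : Type} [Field K₁]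
    [Field K₂] [Algebra k K₁] [Algebra k K₂] [IsFF k K₁] [IsFF k K₂] {g₁ g₂ n : ℕ}
    (hg₁ : IsGenus k K₁ g₁) (hg₂ : IsGenus k K₂ g₂) (hn : g₁ * g₂ < n)
    (a : Fin n → (surf k K₁ K₂).pts →₀ ℚ) (ha : ∀ i, AlbTrivial (a i)) :
    alt a ∈ ratTriv ((surf k K₁ K₂).pow (Fin n)) :=
  voisin_prod hg₁ hg₂ hn a (fun i => (ha i).1) (fun i => (ha i).2)

end Pool.Agent.Results.MP_83b46e_ag.ProductsOfCurves
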