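import Pool.Agent.Q70.CH.SymSq

/-!
# Voisin's conjecture on zero-cycles for symmetric squares of curves
-/

set_option autoImplicit false

namespace Pool.Agent.Results.MP_83b46e_ag.SymmetricSquares

open FF Pool.Agent.Q70.CH

/-- The alternating sum `∑ σ, sgn(σ) a_{σ(1)} × ... × a_{σ(n)}`. -/
noncomputable def alt {X : Type} {n : ℕ} (a : Fin n → X →₀ ℚ) : (Fin n → X) →₀ ℚ :=
  ∑ σ : Equiv.Perm (Fin n), ((Equiv.Perm.sign σ : ℤ) : ℚ) • cross (fun i => a (σ i))

/-- The quotient map `(C × C)^n → (C^(2))^n`; the points of `C^(2)` are the unordered pairs of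
points of `C`. -/
def quo {A : Type} {n : ℕ} (v : Fin n → A × A) : Fin n → Sym2 A := fun i => s((v i).1, (v i).2)

/-- The space of zero-cycles (with rational coefficients) on `(C^(2))^n` rationally equivalent to
zero: the push-forwards of the zero-cycles on `(C × C)^n` rationally equivalent to zero under the
quotient map `(C × C)^n → (C^(2))^n`. -/
noncomputable def ratTrivSym (k : Type) [Field k] [CharZero k] (K : Type) [Field K] [Algebra k K]
    (n : ℕ) : Submodule ℚ ((Fin n → Sym2 (Place k K)) →₀ ℚ) :=
  (ratTriv (((curve K).prod (curve K) : Sp k).pow (Fin n))).map (Finsupp.lmapDomain ℚ ℚ quo)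

/-- The linear map from zero-cycles on `C^(2)` to zero-cycles on `C` with `{x, y} ↦ x + y`. -/
noncomputable def toCurve {A : Type} : (Sym2 A →₀ ℚ) →ₗ[ℚ] (A →₀ ℚ) :=
  Finsupp.linearCombination ℚ
    (Sym2.lift ⟨fun x y => Finsupp.single x 1 + Finsupp.single y 1, fun _ _ => add_comm _ _⟩)

/-- A zero-cycle on `C^(2)` is Albanese-trivial if its image under `{x, y} ↦ x + y` is rationally
equivalent to zero on `C` (the Albanese map of `C^(2)` is `{x, y} ↦ [x] + [y]` in `Pic(C)`). -/
def AlbTrivial {k : Type} [Field k] [CharZero k] {K : Type} [Field K] [Algebra k K]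
    (a : Sym2 (Place k K) →₀ ℚ) : Prop :=
  toCurve a ∈ ratTriv (curve K : Sp k)

/-- the lift to `C × C` -/
noncomputable def lft {A : Type} : (Sym2 A →₀ ℚ) →ₗ[ℚ] (A × A →₀ ℚ) :=
  Finsupp.linearCombination ℚ
    (Sym2.lift ⟨fun x y => (1 / 2 : ℚ) • (Finsupp.single (x, y) 1 + Finsupp.single (y, x) 1),
      fun _ _ => congrArg _ (add_comm _ _)⟩)

lemma quo_lft {A : Type} (a : Sym2 A →₀ ℚ) :
    (lft a).mapDomain (fun p => s(p.1, p.2)) = a := by
  have h : (Finsupp.lmapDomain ℚ ℚ (fun p : A × A => s(p.1, p.2))).comp lft = LinearMap.id := by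
    apply Finsupp.lhom_ext'
    intro z
    apply LinearMap.ext_ring
    induction z with
    | _ x y =>
      simp only [LinearMap.comp_apply, Finsupp.lsingle_apply, lft, Finsupp.linearCombination_single,
        one_smul, Sym2.lift_mk, map_smul, map_add, Finsupp.lmapDomain_apply,
        Finsupp.mapDomain_single, LinearMap.id_apply]
      rw [Sym2.eq_swap (a := y) (b := x), ← two_smul ℚ, smul_smul]
      norm_num
  exact congrArg (fun f => f a) h

lemma swap_lft {A : Type} (a : Sym2 A →₀ ℚ) : (lft a).mapDomain Prod.swap = lft a := by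
  have h : (Finsupp.lmapDomain ℚ ℚ (Prod.swap : A × A → A × A)).comp lft = lft := by
    apply Finsupp.lhom_ext'
    intro z
    apply LinearMap.ext_ring
    induction z with
    | _ x y =>
      simp only [LinearMap.comp_apply, Finsupp.lsingle_apply, lft, Finsupp.linearCombination_single,
        one_smul, Sym2.lift_mk, map_smul, map_add, Finsupp.lmapDomain_apply,
        Finsupp.mapDomain_single, Prod.swap_prod_mk]
      rw [add_comm]
  exact congrArg (fun f => f a) h

lemma fst_lft {A : Type} (a : Sym2 A →₀ ℚ) :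
    (lft a).mapDomain Prod.fst = (1 / 2 : ℚ) • toCurve a := by
  have h : (Finsupp.lmapDomain ℚ ℚ (Prod.fst : A × A → A)).comp lft = (1 / 2 : ℚ) • toCurve := by
    apply Finsupp.lhom_ext'
    intro z
    apply LinearMap.ext_ring
    induction z with
    | _ x y =>
      simp only [LinearMap.comp_apply, Finsupp.lsingle_apply, lft, toCurve, LinearMap.smul_apply,
        Finsupp.linearCombination_single, one_smul, Sym2.lift_mk, map_smul, map_add,
        Finsupp.lmapDomain_apply, Finsupp.mapDomain_single]
  exact congrArg (fun f => f a) h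

/-- Let `S = C^(2)` be the symmetric square of a smooth projective curve `C` of genus `g` over an
algebraically closed field of characteristic zero, so that `p_g(S) = g (g - 1) / 2`.  Let
`n > p_g(S)` and let `a₁, ..., a_n` be Albanese-trivial zero-cycles on `S`.  Then
`∑ σ, sgn(σ) a_{σ(1)} × ... × a_{σ(n)} = 0` in `CH_0(S^n)` with rational coefficients. -/
theorem result {k : Type} [Field k] [CharZero k] [IsAlgClosed k] {K : Type} [Field K]
    [Algebra k K] [IsFF k K] {g n : ℕ} (hg : IsGenus k K g) (hn : g.choose 2 < n)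
    (a : Fin n → Sym2 (Place k K) →₀ ℚ) (ha : ∀ i, AlbTrivial (a i)) :
    alt a ∈ ratTrivSym k K n := by
  have h1 := voisin_sym hg (n := n) (by
      rw [Nat.choose_two_right] at hn
      omega) (fun i => lft (a i)) (fun i => swap_lft (a i)) (by
      intro i
      rw [fst_lft]
      exact Submodule.smul_mem _ _ (ha i))
  refine ⟨_, h1, ?_⟩
  unfold alt
  rw [map_sum]
  apply Finset.sum_congr rfl
  intro σ _
  rw [map_smul]
  congr 1
  change Finsupp.mapDomain _ _ = _
  have h2 := cross_map (fun p : Place k K × Place k K => s(p.1, p.2)) (fun i => lft (a (σ i)))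
  simp only [quo_lft] at h2
  exact h2.symm

end Pool.Agent.Results.MP_83b46e_ag.SymmetricSquares
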